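import Pool.Agent.N809.Der

set_option autoImplicit false

namespace Pool.Agent.Results.MP_cc6741_nt.EvenDerangementSum

/-- For every even `n > 1` and every primitive `n`-th root of unity `ζ` the sum of
`∏_j 1 / (1 - ζ ^ (j - τ j))` over all derangements `τ` of `n` elements is
`((n-1)!!)² / 2ⁿ = n! / 4ⁿ · binom(n, n/2)`. -/
theorem result (n : ℕ) (hn : 1 < n) (he : Even n) (ζ : ℂ) (hζ : IsPrimitiveRoot ζ n) :
    ∑ τ ∈ Finset.univ.filter (fun τ : Equiv.Perm (Fin n) => ∀ j, τ j ≠ j),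
        ∏ j : Fin n, 1 / (1 - ζ ^ ((j : ℤ) - (τ j : ℤ))) =
      ((n - 1).doubleFactorial : ℂ) ^ 2 / 2 ^ n ∧
    ((n - 1).doubleFactorial : ℂ) ^ 2 / 2 ^ n =
      (n.factorial : ℂ) / 4 ^ n * (n.choose (n / 2) : ℂ) := by
  obtain ⟨m, hm⟩ := he
  obtain rfl : n = 2 * m := by omega
  refine ⟨?_, ?_⟩
  · rw [← Pool.Agent.N809.Der.sum_eq two_ne_zero m (by omega) hζ, Finset.sum_filter]
    refine Finset.sum_congr rfl fun τ _ => ?_
    split_ifs with h
    · refine Finset.prod_congr rfl fun j _ => ?_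
      rw [one_div]
      rfl
    · push Not at h
      obtain ⟨j, hj⟩ := h
      symm
      apply Finset.prod_eq_zero (Finset.mem_univ j)
      unfold Pool.Agent.N809.Der.B
      rw [hj, sub_self, zpow_zero, sub_self, inv_zero]
  · rw [Nat.mul_div_cancel_left m two_pos]
    exact Pool.Agent.N809.Der.closed_form m

end Pool.Agent.Results.MP_cc6741_nt.EvenDerangementSum
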